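import Pool.Agent.Work.MP_2a6590_nt.H97B.I.Main
import Pool.Agent.Work.MP_2a6590_nt.H97B.I.Sun
import Pool.Agent.Work.MP_2a6590_nt.H97B.I.Large
import Pool.Agent.Work.MP_2a6590_nt.H97B.I.Atyp
import Pool.Agent.Work.MP_2a6590_nt.H97B.I.Conf
import Pool.Agent.Work.MP_2a6590_nt.H97B.I.Cnt
import Pool.Agent.Work.MP_2a6590_nt.H97B.I.Tot
import Pool.Agent.Work.MP_2a6590_nt.H97B.I.Extr
import Pool.Agent.Work.MP_2a6590_nt.H97B.I.Tri
import Pool.Agent.Work.MP_2a6590_nt.H97B.I.Wt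
import Pool.Agent.Work.MP_2a6590_nt.H97B.I.Lcl
import Pool.Agent.Work.MP_2a6590_nt.XL.I_BAD
import Pool.Agent.Work.MP_2a6590_nt.XL.I_BIG
import Pool.Agent.Work.MP_2a6590_nt.XL.I_COIN
import Pool.Agent.Work.MP_2a6590_nt.XL.I_CONV
import Pool.Agent.Work.MP_2a6590_nt.XL.I_CORE
import Pool.Agent.Work.MP_2a6590_nt.XL.I_DUP
import Pool.Agent.Work.MP_2a6590_nt.XL.I_END
import Pool.Agent.Work.MP_2a6590_nt.XL.I_EXP
import Pool.Agent.Work.MP_2a6590_nt.XL.I_LONG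
import Pool.Agent.Work.MP_2a6590_nt.XL.I_LOW
import Pool.Agent.Work.MP_2a6590_nt.XL.I_MAIN
import Pool.Agent.Work.MP_2a6590_nt.XL.I_MOST
import Pool.Agent.Work.MP_2a6590_nt.XL.I_NEG
import Pool.Agent.Work.MP_2a6590_nt.XL.I_SPARSE
import Pool.Agent.Work.MP_2a6590_nt.XL.I_STR
import Pool.Agent.Work.MP_2a6590_nt.XL.I_SYSG
import Pool.Agent.Work.MP_2a6590_nt.XL.I_TAIL
import Pool.Agent.Work.MP_2a6590_nt.XL.I_THREE
import Pool.Agent.Work.MP_2a6590_nt.XL.I_TOT2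
import Pool.Agent.Work.MP_2a6590_nt.XL.I_TRANS
import Pool.Agent.Work.MP_2a6590_nt.XL.I_UNI
import Pool.Agent.Work.MP_2a6590_nt.XL.I_ZERO

/-!
# MP_2a6590_nt: the least modulus is `2 ^ n - 2 ^ ⌊log₂ n⌋` for all large `n`

Moreover the moduli `N < 2 ^ n` with a valid `n`-element set are exactly the numbers `2 ^ n - 2 ^ k`
with `2 ^ k ≤ n`.
-/

set_option autoImplicit false

namespace Pool.Agent.Results.MP_2a6590_nt.ExactForLargeN

open Finset Pool.Agent.Work.MP_2a6590_nt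

/-- `A` is valid mod `N`: among all multisets of `|A|` elements of `A` (with multiplicities `m`),
only `A` itself has the sum `∑ A`. -/
def Valid (N : ℕ) (A : Finset (ZMod N)) : Prop :=
  ∀ m : ZMod N → ℕ, ∑ a ∈ A, m a = A.card → ∑ a ∈ A, m a • a = ∑ a ∈ A, a → ∀ a ∈ A, m a = 1

theorem vd_of_valid {N : ℕ} {A : Finset (ZMod N)} (h : Valid N A) :
    H97.Vd (fun a : A => (a : ZMod N)) := by
  intro m hm hv
  set m' : ZMod N → ℕ := fun x => if hx : x ∈ A then m ⟨x, hx⟩ else 0 with hm'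
  have e : ∀ a : A, m' a = m a := by
    intro a
    rw [hm']
    simp
  have h1 : ∑ a ∈ A, m' a = A.card := by
    rw [← Finset.sum_coe_sort A m', Finset.sum_congr rfl fun a _ => e a, hm, Fintype.card_coe]
  have h2 : ∑ a ∈ A, m' a • a = ∑ a ∈ A, a := by
    rw [← Finset.sum_coe_sort A fun x => m' x • x, ← Finset.sum_coe_sort A fun x => x]
    have hv' : ∑ i : A, m i • (i : ZMod N) = ∑ i : A, (i : ZMod N) := hv
    rw [← hv']
    exact Finset.sum_congr rfl fun a _ => by rw [e a]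
  intro a
  rw [← e a]
  exact h m' h1 h2 a a.2

theorem valid_of_vd {N n : ℕ} (b : Fin n → ZMod N) (h : H97.Vd b) :
    (univ.image b).card = n ∧ Valid N (univ.image b) := by
  have hinj := XL.Vd_inj h
  have hc : (univ.image b).card = n := by
    rw [Finset.card_image_of_injective _ hinj, Finset.card_univ, Fintype.card_fin]
  refine ⟨hc, ?_⟩
  intro m h1 h2 x hx
  rw [Finset.mem_image] at hx
  obtain ⟨i, -, rfl⟩ := hx
  rw [hc, Finset.sum_image fun i _ j _ hij => hinj hij] at h1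
  rw [Finset.sum_image fun i _ j _ hij => hinj hij,
    Finset.sum_image fun i _ j _ hij => hinj hij] at h2
  exact h (fun i => m (b i)) (by rw [h1, Fintype.card_fin]) h2 i

/-- The lower bound. -/
theorem lower : XL.S_main := by
  have hTot : H97B.S_tot := H97B.prfTot H97B.prfAtyp H97B.prfCnt H97B.prfRegI H97B.prfRegII
  have hTot2 : XL.S_tot2 := XL.TOT2_of H97B.prfAtyp H97B.prfCnt H97B.prfRegI H97B.prfRegII
  have hLcl : H97B.S_lcl := H97B.prfLcl (H97B.prfLarge H97B.prfBin)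
    (H97B.prfExtr H97B.prfSun) H97B.prfTri H97B.prfWt
  have hDesc : H97B.S_desc := H97B.prfDesc hLcl H97B.prfConf hTot
  have hThree : XL.S_three := XL.THREE_pf hDesc H97B.prfConf hTot2 XL.SYSG_pf
  have hBig : XL.S_big := XL.BIG_pf hThree
  have hBad : XL.S_bad := XL.BAD_pf XL.CORE_pf XL.TAIL_pf
  have hUni : XL.S_uni := XL.UNI_pf hBad XL.TAIL_pf (XL.TRANS_pf XL.LOW_pf) XL.ZERO_pf
    (XL.NEG_pf XL.CORE_pf)
  have hMost : XL.S_most := XL.MOST_pf hBig XL.DUP_pf hUni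
  have hSparse : XL.S_sparse := XL.SPARSE_pf XL.LONG_pf XL.LOW_pf
  have hEnd : XL.S_end := XL.END_pf (XL.STR_pf XL.CORE_pf XL.EXP_pf) XL.COIN_pf
  exact XL.MAIN_pf hMost XL.DUP_pf hBad XL.LOW_pf hSparse hEnd

/-- For all large `n`: no `n`-element set is valid modulo an `N < 2 ^ n - 2 ^ ⌊log₂ n⌋`, and the
moduli `N < 2 ^ n` with a valid `n`-element set are exactly the numbers `2 ^ n - 2 ^ k` with
`2 ^ k ≤ n`. -/
theorem result : ∃ n₀ : ℕ, ∀ n : ℕ, n₀ ≤ n →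
    (∀ N : ℕ, 1 ≤ N → N < 2 ^ n - 2 ^ Nat.log 2 n →
      ∀ A : Finset (ZMod N), A.card = n → ¬ Valid N A) ∧
    ∀ N : ℕ, 1 ≤ N → N < 2 ^ n →
      ((∃ A : Finset (ZMod N), A.card = n ∧ Valid N A) ↔ ∃ k : ℕ, 2 ^ k ≤ n ∧ N = 2 ^ n - 2 ^ k) := by
  obtain ⟨n₀, hn₀⟩ := lower
  refine ⟨n₀ + 1, ?_⟩
  intro n hn
  have key : ∀ N : ℕ, 1 ≤ N → N < 2 ^ n → ∀ A : Finset (ZMod N), A.card = n → Valid N A →
      ∃ k : ℕ, N + 2 ^ k = 2 ^ n ∧ 2 ^ k ≤ n := by
    intro N hN hlt A hA hV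
    have hcard : Fintype.card A = n := by rw [Fintype.card_coe, hA]
    have h := hn₀ A N _ hN (vd_of_valid hV) (by omega) (by rw [hcard]; exact hlt)
    rwa [hcard] at h
  refine ⟨?_, ?_⟩
  · intro N hN hlt A hA hV
    obtain ⟨k, hk1, hk2⟩ := key N hN (lt_of_lt_of_le hlt (Nat.sub_le _ _)) A hA hV
    have h1 : k ≤ Nat.log 2 n := Nat.le_log_of_pow_le (by norm_num) hk2
    have h2 : 2 ^ k ≤ 2 ^ Nat.log 2 n := Nat.pow_le_pow_right (by norm_num) h1
    omega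
  · intro N hN hlt
    constructor
    · rintro ⟨A, hA, hV⟩
      obtain ⟨k, hk1, hk2⟩ := key N hN hlt A hA hV
      exact ⟨k, hk2, by omega⟩
    · rintro ⟨k, hk, rfl⟩
      exact ⟨_, valid_of_vd _ (XL.XCONV.vd n k hk)⟩

end Pool.Agent.Results.MP_2a6590_nt.ExactForLargeN
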